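import Pool.Agent.Helper69.WS.St

/-!
# Project WS, module CNT: congruences for the Lucas sequence modulo p^2, counting traces
-/

set_option autoImplicit false

namespace Pool.Agent.Helper36.WS

open Pool.Agent.Helper69.WS Filter Topology

/-! ### LIF -/

/-- the companion sequence -/
private def lucU (t n : ℤ) : ℕ → ℤ
  | 0 => 0
  | 1 => 1
  | (m + 2) => t * lucU t n (m + 1) - n * lucU t n m

private theorem lucV_eq (t n : ℤ) (m : ℕ) :
    lucV t n (m + 1) = t * lucU t n (m + 1) - 2 * n * lucU t n m ∧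
      lucV t n (m + 2) = t * lucU t n (m + 2) - 2 * n * lucU t n (m + 1) := by
  induction m with
  | zero =>
    constructor
    · simp [lucV, lucU]
    · simp [lucV, lucU]
      ring
  | succ m ih =>
    refine ⟨ih.2, ?_⟩
    have h1 : lucV t n (m + 1 + 2) = t * lucV t n (m + 2) - n * lucV t n (m + 1) := rfl
    have h2 : lucU t n (m + 1 + 2) = t * lucU t n (m + 2) - n * lucU t n (m + 1) := rfl
    have h3 : lucU t n (m + 2) = t * lucU t n (m + 1) - n * lucU t n m := rfl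
    have h4 : lucU t n (m + 1 + 1) = lucU t n (m + 2) := rfl
    rw [h1, h2, ih.1, ih.2, h4, h3]
    ring

private theorem lucV_shift (t n h : ℤ) (m : ℕ) :
    h ^ 2 ∣ lucV (t + h) n m - lucV t n m - m * h * lucU t n m ∧
      h ^ 2 ∣ lucV (t + h) n (m + 1) - lucV t n (m + 1) - (m + 1) * h * lucU t n (m + 1) := by
  induction m with
  | zero =>
    constructor
    · simp [lucV, lucU]
    · simp [lucV, lucU]
  | succ m ih =>
    refine ⟨by push_cast; exact ih.2, ?_⟩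
    obtain ⟨⟨a, ha⟩, ⟨b, hb⟩⟩ := ih
    have h1 : lucV (t + h) n (m + 1 + 1) = (t + h) * lucV (t + h) n (m + 1) - n * lucV (t + h) n m :=
      rfl
    have h2 : lucV t n (m + 1 + 1) = t * lucV t n (m + 1) - n * lucV t n m := rfl
    have h3 : lucU t n (m + 1 + 1) = t * lucU t n (m + 1) - n * lucU t n m := rfl
    have h4 := (lucV_eq t n m).1
    have ha' : lucV (t + h) n m = lucV t n m + m * h * lucU t n m + h ^ 2 * a := by linarith
    have hb' : lucV (t + h) n (m + 1) = lucV t n (m + 1) + (m + 1) * h * lucU t n (m + 1) +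
        h ^ 2 * b := by linarith
    refine ⟨(m + 1) * lucU t n (m + 1) + (t + h) * b - n * a, ?_⟩
    rw [h1, h2, h3, ha', hb', h4]
    push_cast
    ring

private theorem lucV_cast {K : Type} [CommRing K] (t n : ℤ) (x y : K) (h1 : x + y = t)
    (h2 : x * y = n) (m : ℕ) :
    ((lucV t n m : ℤ) : K) = x ^ m + y ^ m ∧ ((lucV t n (m + 1) : ℤ) : K) = x ^ (m + 1) + y ^ (m + 1) := by
  induction m with
  | zero =>
    constructor
    · simp [lucV]
      norm_num
    · simp [lucV, h1]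
  | succ m ih =>
    refine ⟨ih.2, ?_⟩
    have h3 : lucV t n (m + 1 + 1) = t * lucV t n (m + 1) - n * lucV t n m := rfl
    rw [h3]
    push_cast
    rw [ih.1, ih.2, ← h1, ← h2]
    ring

private theorem lucV_modp (t n : ℤ) (p : ℕ) (hp : p.Prime) : lucV t n p ≡ t [ZMOD (p : ℤ)] := by
  have : Fact p.Prime := ⟨hp⟩
  let K := AlgebraicClosure (ZMod p)
  have : CharP K p := charP_of_injective_algebraMap (algebraMap (ZMod p) K).injective p
  obtain ⟨x, hx⟩ : ∃ x : K, x ^ 2 - (t : K) * x + (n : K) = 0 := by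
    have hdeg : (Polynomial.X ^ 2 - Polynomial.C (t : K) * Polynomial.X + Polynomial.C (n : K)).degree ≠ 0 := by
      have h0 : (Polynomial.X ^ 2 - Polynomial.C (t : K) * Polynomial.X + Polynomial.C (n : K) :
          Polynomial K) = Polynomial.C 1 * Polynomial.X ^ 2 + Polynomial.C (-(t : K)) * Polynomial.X +
            Polynomial.C (n : K) := by
        rw [Polynomial.C_1, Polynomial.C_neg]
        ring
      rw [h0, Polynomial.degree_quadratic one_ne_zero]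
      norm_num
    obtain ⟨x, hx⟩ := IsAlgClosed.exists_root _ hdeg
    refine ⟨x, ?_⟩
    simpa [Polynomial.IsRoot.def] using hx
  have h1 : x + ((t : K) - x) = t := by ring
  have h2 : x * ((t : K) - x) = n := by linear_combination -hx
  have h3 := (lucV_cast t n x ((t : K) - x) h1 h2 p).1
  have : ExpChar K p := ExpChar.prime hp
  rw [← add_pow_expChar, h1] at h3
  have h4 : ((t : ℤ) : K) ^ p = t := by
    have h5 : ((t : ZMod p)) ^ p = (t : ZMod p) := ZMod.pow_card _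
    have h6 := congrArg (algebraMap (ZMod p) K) h5
    rw [map_pow, map_intCast] at h6
    exact h6
  rw [h4] at h3
  have h7 : ((t - lucV t n p : ℤ) : K) = 0 := by
    push_cast
    rw [h3]
    ring
  rw [CharP.intCast_eq_zero_iff K p] at h7
  exact (Int.modEq_iff_dvd.2 h7)

theorem hLIF : StLIF := by
  intro n p hp
  refine ⟨fun t => lucV_modp t n p hp, fun t s => ?_⟩
  obtain ⟨k, hk⟩ := (lucV_shift t n (p * s) p).1
  refine Int.ModEq.symm (Int.modEq_iff_dvd.2 ⟨s * lucU t n p + s ^ 2 * k, ?_⟩)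
  linear_combination hk

/-! ### CNT -/

open Classical in
/-- the counting function as a sum -/
private noncomputable def G (X : ℕ) (P : ℤ → Prop) : ℝ :=
  ∑ t ∈ Finset.Ioc (0 : ℤ) X, if P t then 1 else 0

private theorem G_card (X : ℕ) (P : ℤ → Prop) [DecidablePred P] :
    G X P = (((Finset.Ioc (0 : ℤ) X).filter P).card : ℝ) := by
  unfold G
  rw [Finset.card_filter]
  push_cast
  refine Finset.sum_congr rfl fun t _ => ?_
  by_cases h : P t
  · rw [if_pos h, if_pos h]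
  · rw [if_neg h, if_neg h]

private theorem cnt_eq (X : ℕ) (P : ℤ → Prop) : (cnt X P : ℝ) = G X P := by
  classical
  rw [G_card]
  unfold cnt
  have e : {t : ℤ | 1 ≤ t ∧ t ≤ X ∧ P t} = (((Finset.Ioc (0 : ℤ) X).filter P : Finset ℤ) : Set ℤ) := by
    ext t
    simp only [Set.mem_ofPred_eq, Finset.coe_filter, Finset.mem_Ioc]
    constructor
    · rintro ⟨h1, h2, h3⟩
      exact ⟨⟨by omega, h2⟩, h3⟩
    · rintro ⟨⟨h1, h2⟩, h3⟩
      exact ⟨by omega, h2, h3⟩
  rw [e, Set.ncard_coe_finset]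

private theorem G_congr {X : ℕ} {P Q : ℤ → Prop} (h : ∀ t, P t ↔ Q t) : G X P = G X Q := by
  have : P = Q := funext fun t => propext (h t)
  rw [this]

private theorem G_base (X M : ℕ) (c : ℤ) (hM : 0 < M) :
    |G X (fun t => t ≡ c [ZMOD (M : ℤ)]) - X / M| ≤ 1 := by
  have hMZ : (0 : ℤ) < M := by exact_mod_cast hM
  have hMR : (0 : ℝ) < M := by exact_mod_cast hM
  have h1 : G X (fun t => t ≡ c [ZMOD (M : ℤ)]) =
      (((Finset.Ioc (0 : ℤ) X).filter (fun t => t ≡ c [ZMOD (M : ℤ)])).card : ℝ) :=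
    G_card X (fun t => t ≡ c [ZMOD (M : ℤ)])
  have h2 := Int.Ioc_filter_modEq_card (0 : ℤ) X hMZ c
  have h3 : (((((Finset.Ioc (0 : ℤ) X).filter (fun t => t ≡ c [ZMOD (M : ℤ)])).card : ℤ) : ℚ)) =
      max ((⌊((X : ℤ) - c : ℚ) / ((M : ℤ) : ℚ)⌋ : ℚ) - ⌊(((0 : ℤ) : ℚ) - c) / ((M : ℤ) : ℚ)⌋) 0 := by
    have := congrArg (fun z : ℤ => (z : ℚ)) h2
    push_cast at this ⊢
    exact this
  have hMQ : (0 : ℚ) < M := by exact_mod_cast hM
  have key : |(((((Finset.Ioc (0 : ℤ) X).filter (fun t => t ≡ c [ZMOD (M : ℤ)])).card : ℤ) : ℚ)) -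
      (X : ℚ) / M| ≤ 1 := by
    rw [h3]
    have a1 := Int.floor_le (((X : ℤ) - c : ℚ) / ((M : ℤ) : ℚ))
    have a2 := Int.lt_floor_add_one (((X : ℤ) - c : ℚ) / ((M : ℤ) : ℚ))
    have b1 := Int.floor_le ((((0 : ℤ) : ℚ) - c) / ((M : ℤ) : ℚ))
    have b2 := Int.lt_floor_add_one ((((0 : ℤ) : ℚ) - c) / ((M : ℤ) : ℚ))
    have e : ((X : ℤ) - c : ℚ) / ((M : ℤ) : ℚ) - (((0 : ℤ) : ℚ) - c) / ((M : ℤ) : ℚ) = (X : ℚ) / M := by
      push_cast
      field_simp
      ring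
    have hX : (0 : ℚ) ≤ (X : ℚ) / M := by positivity
    rw [abs_le]
    constructor
    · have := le_max_left ((⌊((X : ℤ) - c : ℚ) / ((M : ℤ) : ℚ)⌋ : ℚ) -
        ⌊(((0 : ℤ) : ℚ) - c) / ((M : ℤ) : ℚ)⌋) 0
      linarith
    · have : max ((⌊((X : ℤ) - c : ℚ) / ((M : ℤ) : ℚ)⌋ : ℚ) -
        ⌊(((0 : ℤ) : ℚ) - c) / ((M : ℤ) : ℚ)⌋) 0 ≤ (X : ℚ) / M + 1 := by
        apply max_le
        · linarith
        · linarith
      linarith
  rw [h1]
  have key2 : ((|(((((Finset.Ioc (0 : ℤ) X).filter (fun t => t ≡ c [ZMOD (M : ℤ)])).card : ℤ) : ℚ)) -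
      (X : ℚ) / M| : ℚ) : ℝ) ≤ ((1 : ℚ) : ℝ) := by exact_mod_cast key
  push_cast at key2
  exact key2

/-- the condition at `p`, in terms of the residue modulo `p` -/
private theorem cond_iff (hLIF : StLIF) (n a : ℤ) {p : ℕ} (hp : p.Prime) (r t : ℤ) :
    (t ≡ r [ZMOD (p : ℤ)] → (lucV t n p ≡ t + p * a [ZMOD (p : ℤ) ^ 2] ↔
      t ≡ lucV r n p - p * a [ZMOD (p : ℤ) ^ 2])) ∧
    (t ≡ lucV r n p - p * a [ZMOD (p : ℤ) ^ 2] → t ≡ r [ZMOD (p : ℤ)]) := by
  obtain ⟨h1, h2⟩ := hLIF n p hp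
  constructor
  · intro h
    obtain ⟨s, hs⟩ := Int.modEq_iff_dvd.1 h.symm
    have ht : t = r + p * s := by linarith
    have h3 := h2 r s
    rw [← ht] at h3
    constructor
    · intro h4
      have h5 : t + p * a ≡ lucV r n p [ZMOD (p : ℤ) ^ 2] := h4.symm.trans h3
      have h6 := h5.sub_right (p * a)
      rwa [add_sub_cancel_right] at h6
    · intro h4
      have h5 := h4.add_right (p * a)
      rw [sub_add_cancel] at h5
      exact h3.trans h5.symm
  · intro h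
    have h3 : t ≡ lucV r n p - p * a [ZMOD (p : ℤ)] := h.of_dvd (dvd_pow_self _ two_ne_zero)
    have h4 : lucV r n p - p * a ≡ r - 0 [ZMOD (p : ℤ)] := by
      refine (h1 r).sub ?_
      exact (Int.modEq_zero_iff_dvd.2 (dvd_mul_right _ _))
    rw [sub_zero] at h4
    exact h3.trans h4

private theorem crt1 (m q : ℤ) (h : IsCoprime m q) (a b : ℤ) :
    ∃ c, ∀ t, (t ≡ a [ZMOD m] ∧ t ≡ b [ZMOD q]) ↔ t ≡ c [ZMOD m * q] := by
  obtain ⟨u, v, huv⟩ := h
  refine ⟨a * v * q + b * u * m, fun t => ?_⟩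
  have h1 : a * v * q + b * u * m ≡ a [ZMOD m] := by
    refine Int.ModEq.symm (Int.modEq_iff_dvd.2 ⟨u * (b - a), ?_⟩)
    linear_combination a * huv
  have h2 : a * v * q + b * u * m ≡ b [ZMOD q] := by
    refine Int.ModEq.symm (Int.modEq_iff_dvd.2 ⟨v * (a - b), ?_⟩)
    linear_combination b * huv
  constructor
  · rintro ⟨h3, h4⟩
    have h5 := Int.modEq_iff_dvd.1 (h3.trans h1.symm)
    have h6 := Int.modEq_iff_dvd.1 (h4.trans h2.symm)
    exact Int.modEq_iff_dvd.2 (IsCoprime.mul_dvd ⟨u, v, huv⟩ h5 h6)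
  · intro h3
    exact ⟨(h3.of_dvd (dvd_mul_right _ _)).trans h1, (h3.of_dvd (dvd_mul_left _ _)).trans h2⟩

private theorem crt2 (m p : ℤ) (hp0 : p ≠ 0) (h : IsCoprime m p) (a b : ℤ)
    (hab : b ≡ a [ZMOD p]) :
    ∃ c, ∀ t, (t ≡ a [ZMOD p * m] ∧ t ≡ b [ZMOD p ^ 2]) ↔ t ≡ c [ZMOD p * m * p] := by
  obtain ⟨d, hd⟩ := Int.modEq_iff_dvd.1 hab.symm
  obtain ⟨u, v, huv⟩ := h
  refine ⟨a + p * m * (u * d), fun t => ?_⟩
  have h1 : a + p * m * (u * d) ≡ a [ZMOD p * m] := by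
    refine Int.ModEq.symm (Int.modEq_iff_dvd.2 ⟨u * d, ?_⟩)
    ring
  have h2 : a + p * m * (u * d) ≡ b [ZMOD p ^ 2] := by
    refine Int.ModEq.symm (Int.modEq_iff_dvd.2 ⟨-(v * d), ?_⟩)
    linear_combination (p * d) * huv - hd
  constructor
  · rintro ⟨h3, h4⟩
    obtain ⟨x, hx⟩ := Int.modEq_iff_dvd.1 (h3.trans h1.symm)
    obtain ⟨y, hy⟩ := Int.modEq_iff_dvd.1 (h4.trans h2.symm)
    have h5 : m * x = p * y := by
      have : p * (m * x) = p * (p * y) := by
        rw [← mul_assoc, ← hx, hy]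
        ring
      exact mul_left_cancel₀ hp0 this
    have h6 : m * p ∣ m * x :=
      IsCoprime.mul_dvd ⟨u, v, huv⟩ (dvd_mul_right _ _) ⟨y, h5⟩
    refine Int.modEq_iff_dvd.2 ?_
    rw [hx, mul_assoc, mul_assoc]
    exact mul_dvd_mul_left p h6
  · intro h3
    refine ⟨(h3.of_dvd (dvd_mul_right _ _)).trans h1, (h3.of_dvd ⟨m, by ring⟩).trans h2⟩

private theorem G_split (X p : ℕ) (hp : p.Prime) (P C : ℤ → Prop) (R : ℕ → ℤ → Prop)
    (h1 : ∀ (r : ℕ) (t : ℤ), t ≡ r [ZMOD (p : ℤ)] → (C t ↔ R r t))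
    (h2 : ∀ (r : ℕ) (t : ℤ), R r t → t ≡ r [ZMOD (p : ℤ)]) :
    G X (fun t => P t ∧ C t) = ∑ r ∈ Finset.range p, G X (fun t => P t ∧ R r t) := by
  classical
  unfold G
  rw [Finset.sum_comm]
  refine Finset.sum_congr rfl fun t _ => ?_
  have hp0 : (0 : ℤ) < p := by exact_mod_cast hp.pos
  set r₀ : ℕ := (t % (p : ℤ)).toNat with hr0
  have hr0' : (r₀ : ℤ) = t % p := by
    rw [hr0, Int.toNat_of_nonneg (Int.emod_nonneg _ hp0.ne')]
  have hlt : r₀ < p := by
    have := Int.emod_lt_of_pos t hp0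
    rw [← hr0'] at this
    exact_mod_cast this
  have ht : t ≡ r₀ [ZMOD (p : ℤ)] := by
    rw [hr0']
    exact (Int.mod_modEq t p).symm
  rw [Finset.sum_eq_single r₀]
  · have h := h1 r₀ t ht
    by_cases hP : P t
    · by_cases hC : C t
      · rw [if_pos ⟨hP, hC⟩, if_pos ⟨hP, h.1 hC⟩]
      · rw [if_neg (fun x => hC x.2), if_neg (fun x => hC (h.2 x.2))]
    · rw [if_neg (fun x => hP x.1), if_neg (fun x => hP x.1)]
  · intro r hr hne
    rw [if_neg]
    rintro ⟨-, h3⟩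
    have h4 := (h2 r t h3).symm.trans ht
    rw [Finset.mem_range] at hr
    apply hne
    have h5 : (r : ℤ) % p = (r₀ : ℤ) % p := h4
    rw [Int.emod_eq_of_lt (by positivity) (by exact_mod_cast hr),
      Int.emod_eq_of_lt (by positivity) (by exact_mod_cast hlt)] at h5
    exact_mod_cast h5
  · intro h
    exact absurd (Finset.mem_range.2 hlt) h

private theorem not_sq_dvd {p q M : ℕ} (hp : p.Prime) (hq : q.Prime) (hpq : q ≠ p)
    (h : ¬ q ^ 2 ∣ M) (j : ℕ) : ¬ q ^ 2 ∣ M * p ^ j := by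
  intro h1
  have hc : Nat.Coprime (q ^ 2) (p ^ j) := Nat.Coprime.pow _ _ ((Nat.coprime_primes hq hp).2 hpq)
  exact h (hc.dvd_of_dvd_mul_right h1)

theorem hCNT (hLIF : StLIF) : StCNT := by
  classical
  intro n S
  induction S using Finset.induction_on with
  | empty =>
    intro M c a X hM _
    rw [cnt_eq]
    simp only [Finset.notMem_empty, false_imp_iff, implies_true, and_true, Finset.prod_empty,
      mul_one]
    exact G_base X M c hM
  | insert p S hpS ih =>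
    intro M c a X hM hS
    have hp := (hS p (Finset.mem_insert_self p S)).1
    have hpM := (hS p (Finset.mem_insert_self p S)).2
    have hS' : ∀ q ∈ S, q.Prime ∧ ¬ q ^ 2 ∣ M := fun q hq => hS q (Finset.mem_insert_of_mem hq)
    have hqp : ∀ q ∈ S, q ≠ p := fun q hq h => hpS (h ▸ hq)
    have hp0 : (0 : ℝ) < p := by exact_mod_cast hp.pos
    have hM0 : (0 : ℝ) < M := by exact_mod_cast hM
    have hprod : (0 : ℝ) < ∏ q ∈ S, (q : ℝ) :=
      Finset.prod_pos fun q hq => by exact_mod_cast (hS' q hq).1.pos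
    rw [cnt_eq, Finset.prod_insert hpS]
    have e1 : G X (fun t => t ≡ c [ZMOD (M : ℤ)] ∧ ∀ q ∈ insert p S,
        lucV t n q ≡ t + q * a q [ZMOD (q : ℤ) ^ 2]) =
        G X (fun t => (t ≡ c [ZMOD (M : ℤ)] ∧ ∀ q ∈ S,
          lucV t n q ≡ t + q * a q [ZMOD (q : ℤ) ^ 2]) ∧
            lucV t n p ≡ t + p * a p [ZMOD (p : ℤ) ^ 2]) := by
      apply G_congr
      intro t
      constructor
      · rintro ⟨h1, h2⟩
        exact ⟨⟨h1, fun q hq => h2 q (Finset.mem_insert_of_mem hq)⟩,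
          h2 p (Finset.mem_insert_self p S)⟩
      · rintro ⟨⟨h1, h2⟩, h3⟩
        refine ⟨h1, fun q hq => ?_⟩
        rcases Finset.mem_insert.1 hq with rfl | h
        · exact h3
        · exact h2 q h
    rw [e1]
    by_cases hdvd : p ∣ M
    · -- `p` divides `M`
      obtain ⟨m, rfl⟩ := hdvd
      have hcop : IsCoprime (m : ℤ) (p : ℤ) := by
        rw [Nat.isCoprime_iff_coprime]
        refine Nat.Coprime.symm ((Nat.Prime.coprime_iff_not_dvd hp).2 fun h => hpM ?_)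
        obtain ⟨k, rfl⟩ := h
        exact ⟨k, by ring⟩
      have hstar : lucV c n p - p * a p ≡ c [ZMOD (p : ℤ)] :=
        (cond_iff hLIF n (a p) hp c _).2 (Int.ModEq.refl _)
      obtain ⟨c', hc'⟩ := crt2 (m : ℤ) (p : ℤ) (by exact_mod_cast hp.ne_zero) hcop c _ hstar
      have e2 : G X (fun t => (t ≡ c [ZMOD ((p * m : ℕ) : ℤ)] ∧ ∀ q ∈ S,
          lucV t n q ≡ t + q * a q [ZMOD (q : ℤ) ^ 2]) ∧
            lucV t n p ≡ t + p * a p [ZMOD (p : ℤ) ^ 2]) =
          G X (fun t => t ≡ c' [ZMOD ((p * m * p : ℕ) : ℤ)] ∧ ∀ q ∈ S,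
            lucV t n q ≡ t + q * a q [ZMOD (q : ℤ) ^ 2]) := by
        apply G_congr
        intro t
        have h1 := hc' t
        push_cast
        constructor
        · rintro ⟨⟨h2, h3⟩, h4⟩
          have h5 : t ≡ c [ZMOD (p : ℤ)] := h2.of_dvd (dvd_mul_right _ _)
          exact ⟨h1.1 ⟨h2, ((cond_iff hLIF n (a p) hp c t).1 h5).1 h4⟩, h3⟩
        · rintro ⟨h2, h3⟩
          obtain ⟨h4, h5⟩ := h1.2 h2
          have h6 : t ≡ c [ZMOD (p : ℤ)] := h4.of_dvd (dvd_mul_right _ _)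
          exact ⟨⟨h4, h3⟩, ((cond_iff hLIF n (a p) hp c t).1 h6).2 h5⟩
      rw [e2, ← cnt_eq]
      have h := ih (p * m * p) c' a X (Nat.mul_pos hM hp.pos) fun q hq => by
        have := not_sq_dvd hp (hS' q hq).1 (hqp q hq) (hS' q hq).2 1
        rw [pow_one] at this
        exact ⟨(hS' q hq).1, this⟩
      have e3 : (X : ℝ) / (((p * m * p : ℕ) : ℝ) * ∏ q ∈ S, (q : ℝ)) =
          X / (((p * m : ℕ) : ℝ) * (p * ∏ q ∈ S, (q : ℝ))) := by
        push_cast
        rw [mul_assoc ((p : ℝ) * m)]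
      rw [e3] at h
      refine h.trans ?_
      have hp1 : (1 : ℝ) ≤ p := by exact_mod_cast hp.one_le
      nlinarith
    · -- `p` does not divide `M`
      have hcop : IsCoprime (M : ℤ) ((p : ℤ) ^ 2) := by
        refine IsCoprime.pow_right ?_
        rw [Nat.isCoprime_iff_coprime]
        exact Nat.Coprime.symm ((Nat.Prime.coprime_iff_not_dvd hp).2 hdvd)
      rw [G_split X p hp (fun t => t ≡ c [ZMOD (M : ℤ)] ∧ ∀ q ∈ S,
          lucV t n q ≡ t + q * a q [ZMOD (q : ℤ) ^ 2])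
          (fun t => lucV t n p ≡ t + p * a p [ZMOD (p : ℤ) ^ 2])
          (fun r t => t ≡ lucV r n p - p * a p [ZMOD (p : ℤ) ^ 2])
          (fun r t h => (cond_iff hLIF n (a p) hp r t).1 h)
          (fun r t h => (cond_iff hLIF n (a p) hp r t).2 h)]
      have hterm : ∀ r ∈ Finset.range p, |G X (fun t => (t ≡ c [ZMOD (M : ℤ)] ∧ ∀ q ∈ S,
          lucV t n q ≡ t + q * a q [ZMOD (q : ℤ) ^ 2]) ∧
            t ≡ lucV r n p - p * a p [ZMOD (p : ℤ) ^ 2]) -
              X / (((M * p ^ 2 : ℕ) : ℝ) * ∏ q ∈ S, (q : ℝ))| ≤ ∏ q ∈ S, (q : ℝ) := by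
        intro r _
        obtain ⟨c', hc'⟩ := crt1 (M : ℤ) ((p : ℤ) ^ 2) hcop c (lucV r n p - p * a p)
        have e2 : G X (fun t => (t ≡ c [ZMOD (M : ℤ)] ∧ ∀ q ∈ S,
          lucV t n q ≡ t + q * a q [ZMOD (q : ℤ) ^ 2]) ∧
            t ≡ lucV r n p - p * a p [ZMOD (p : ℤ) ^ 2]) =
            G X (fun t => t ≡ c' [ZMOD ((M * p ^ 2 : ℕ) : ℤ)] ∧ ∀ q ∈ S,
              lucV t n q ≡ t + q * a q [ZMOD (q : ℤ) ^ 2]) := by
          apply G_congr
          intro t
          have h1 := hc' t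
          push_cast
          constructor
          · rintro ⟨⟨h2, h3⟩, h4⟩
            exact ⟨h1.1 ⟨h2, h4⟩, h3⟩
          · rintro ⟨h2, h3⟩
            obtain ⟨h4, h5⟩ := h1.2 h2
            exact ⟨⟨h4, h3⟩, h5⟩
        rw [e2, ← cnt_eq]
        exact ih (M * p ^ 2) c' a X (Nat.mul_pos hM (pow_pos hp.pos 2)) fun q hq =>
          ⟨(hS' q hq).1, not_sq_dvd hp (hS' q hq).1 (hqp q hq) (hS' q hq).2 2⟩
      have e4 : (X : ℝ) / (M * (p * ∏ q ∈ S, (q : ℝ))) =
          ∑ r ∈ Finset.range p, (X : ℝ) / (((M * p ^ 2 : ℕ) : ℝ) * ∏ q ∈ S, (q : ℝ)) := by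
        rw [Finset.sum_const, Finset.card_range, nsmul_eq_mul]
        push_cast
        field_simp
      rw [e4, ← Finset.sum_sub_distrib]
      refine (Finset.abs_sum_le_sum_abs _ _).trans ?_
      refine (Finset.sum_le_sum hterm).trans ?_
      rw [Finset.sum_const, Finset.card_range, nsmul_eq_mul]

end Pool.Agent.Helper36.WS
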